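import Pool.Agent.ZRT.StmtsA
import Pool.Agent.Helper5_RF.Nat
import Pool.Agent.Helper5_RF.Diffeo
import Pool.Agent.Helper36_RF.Chr

/-! Squad ZRT (MP_33f2b9_gt), row CYP (helper55): pullback of a cylinder metric by a norm preserving
homogeneous diffeomorphism. -/

set_option autoImplicit false

noncomputable section

open scoped ContDiff Topology RealInnerProductSpace
open Set MeasureTheory

namespace Pool.Agent.ZRT.H55

open Pool.Agent.RF Pool.Agent.MVS Pool.Agent.ZRT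

variable {Ψ Ψ' : E5 → E5}

theorem isOpen_om : IsOpen (Om (Fin 5)) := isOpen_ne

theorem dif_mem (h : IsDif Ψ Ψ') {x : E5} (hx : x ∈ Om (Fin 5)) : Ψ x ∈ Om (Fin 5) := by
  show Ψ x ≠ 0
  rw [← norm_pos_iff, h.norm, norm_pos_iff]
  exact hx

theorem dif_mem' (h : IsDif Ψ Ψ') {x : E5} (hx : x ∈ Om (Fin 5)) : Ψ' x ∈ Om (Fin 5) := by
  show Ψ' x ≠ 0
  rw [← norm_pos_iff, h.norm', norm_pos_iff]
  exact hx

theorem dif_diffAt (h : IsDif Ψ Ψ') {x : E5} (hx : x ∈ Om (Fin 5)) : DifferentiableAt ℝ Ψ x :=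
  (h.smooth.contDiffAt (isOpen_om.mem_nhds hx)).differentiableAt (by simp)

theorem dif_diffAt' (h : IsDif Ψ Ψ') {x : E5} (hx : x ∈ Om (Fin 5)) : DifferentiableAt ℝ Ψ' x :=
  (h.smooth'.contDiffAt (isOpen_om.mem_nhds hx)).differentiableAt (by simp)

theorem dif_left (h : IsDif Ψ Ψ') {x : E5} (hx : x ∈ Om (Fin 5)) :
    (fderiv ℝ Ψ' (Ψ x)).comp (fderiv ℝ Ψ x) = ContinuousLinearMap.id ℝ E5 := by
  have h1 : HasFDerivAt (Ψ' ∘ Ψ) ((fderiv ℝ Ψ' (Ψ x)).comp (fderiv ℝ Ψ x)) x :=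
    (dif_diffAt' h (dif_mem h hx)).hasFDerivAt.comp x (dif_diffAt h hx).hasFDerivAt
  have h2 : Ψ' ∘ Ψ =ᶠ[𝓝 x] id := by
    filter_upwards [isOpen_om.mem_nhds hx] with y hy
    exact h.left y hy
  exact h1.unique ((hasFDerivAt_id x).congr_of_eventuallyEq h2)

theorem dif_right (h : IsDif Ψ Ψ') {x : E5} (hx : x ∈ Om (Fin 5)) :
    (fderiv ℝ Ψ x).comp (fderiv ℝ Ψ' (Ψ x)) = ContinuousLinearMap.id ℝ E5 := by
  have hy := dif_mem h hx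
  have e : Ψ' (Ψ x) = x := h.left x hx
  have h0 : HasFDerivAt Ψ (fderiv ℝ Ψ x) (Ψ' (Ψ x)) := by
    rw [e]
    exact (dif_diffAt h hx).hasFDerivAt
  have h1 : HasFDerivAt (Ψ ∘ Ψ') ((fderiv ℝ Ψ x).comp (fderiv ℝ Ψ' (Ψ x))) (Ψ x) :=
    h0.comp (Ψ x) (dif_diffAt' h hy).hasFDerivAt
  have h2 : Ψ ∘ Ψ' =ᶠ[𝓝 (Ψ x)] id := by
    filter_upwards [isOpen_om.mem_nhds hy] with y hy
    exact h.right y hy
  exact h1.unique ((hasFDerivAt_id (Ψ x)).congr_of_eventuallyEq h2)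

theorem dif_inv (h : IsDif Ψ Ψ') {x : E5} (hx : x ∈ Om (Fin 5)) :
    (fderiv ℝ Ψ x).IsInvertible :=
  ⟨ContinuousLinearEquiv.equivOfInverse (fderiv ℝ Ψ x) (fderiv ℝ Ψ' (Ψ x))
    (fun v => by
      have := congrArg (fun L : E5 →L[ℝ] E5 => L v) (dif_left h hx)
      exact this)
    (fun v => by
      have := congrArg (fun L : E5 →L[ℝ] E5 => L v) (dif_right h hx)
      exact this), rfl⟩

theorem smul_mem_om {c : ℝ} (hc : 0 < c) {x : E5} (hx : x ∈ Om (Fin 5)) : c • x ∈ Om (Fin 5) :=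
  smul_ne_zero hc.ne' hx

theorem dif_hom (h : IsDif Ψ Ψ') {c : ℝ} (hc : 0 < c) {x : E5} (hx : x ∈ Om (Fin 5)) :
    fderiv ℝ Ψ (c • x) = fderiv ℝ Ψ x := by
  have h1 : HasFDerivAt (fun y : E5 => Ψ (c • y))
      ((fderiv ℝ Ψ (c • x)).comp (c • ContinuousLinearMap.id ℝ E5)) x := by
    have h2 : HasFDerivAt (fun y : E5 => c • y) (c • ContinuousLinearMap.id ℝ E5) x :=
      (hasFDerivAt_id x).const_smul c
    exact (dif_diffAt h (smul_mem_om hc hx)).hasFDerivAt.comp x h2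
  have h3 : HasFDerivAt (fun y : E5 => c • Ψ y) (c • fderiv ℝ Ψ x) x :=
    (dif_diffAt h hx).hasFDerivAt.const_smul c
  have h4 : (fun y : E5 => Ψ (c • y)) =ᶠ[𝓝 x] fun y => c • Ψ y := by
    filter_upwards [isOpen_om.mem_nhds hx] with y hy
    exact h.hom c hc y hy
  have h5 := h1.unique (h3.congr_of_eventuallyEq h4)
  ext1 v
  have h6 := congrArg (fun L : E5 →L[ℝ] E5 => L v) h5
  have h7 : fderiv ℝ Ψ (c • x) (c • v) = c • fderiv ℝ Ψ x v := h6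
  rw [map_smul] at h7
  exact smul_right_injective E5 hc.ne' h7

theorem dif_self (h : IsDif Ψ Ψ') {x : E5} (hx : x ∈ Om (Fin 5)) : fderiv ℝ Ψ x x = Ψ x := by
  have h1 : HasDerivAt (fun t : ℝ => Ψ (t • x)) (fderiv ℝ Ψ x x) 1 := by
    have h2 : HasDerivAt (fun t : ℝ => t • x) x 1 := by
      simpa using (hasDerivAt_id (1 : ℝ)).smul_const x
    have h3 : HasFDerivAt Ψ (fderiv ℝ Ψ x) ((1 : ℝ) • x) := by
      rw [one_smul]
      exact (dif_diffAt h hx).hasFDerivAt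
    exact h3.comp_hasDerivAt 1 h2
  have h4 : HasDerivAt (fun t : ℝ => t • Ψ x) (Ψ x) 1 := by
    simpa using (hasDerivAt_id (1 : ℝ)).smul_const (Ψ x)
  have h5 : (fun t : ℝ => Ψ (t • x)) =ᶠ[𝓝 1] fun t => t • Ψ x := by
    filter_upwards [lt_mem_nhds one_pos] with t ht
    exact h.hom t ht x hx
  exact h1.unique (h4.congr_of_eventuallyEq h5)

theorem dif_inner (h : IsDif Ψ Ψ') {x : E5} (hx : x ∈ Om (Fin 5)) (w : E5) :
    ⟪Ψ x, fderiv ℝ Ψ x w⟫ = ⟪x, w⟫ := by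
  have h1 := (dif_diffAt h hx).hasFDerivAt.norm_sq
  have h2 : HasFDerivAt (fun y : E5 => ‖y‖ ^ 2)
      (2 • (innerSL ℝ x).comp (ContinuousLinearMap.id ℝ E5)) x := (hasFDerivAt_id x).norm_sq
  have h3 : (fun y : E5 => ‖Ψ y‖ ^ 2) = fun y => ‖y‖ ^ 2 := by
    funext y
    rw [h.norm]
  rw [h3] at h1
  have h4 := congrArg (fun L : E5 →L[ℝ] ℝ => L w) (h1.unique h2)
  rw [two_nsmul, two_nsmul] at h4
  have h5 : ⟪Ψ x, fderiv ℝ Ψ x w⟫ + ⟪Ψ x, fderiv ℝ Ψ x w⟫ = ⟪x, w⟫ + ⟪x, w⟫ := h4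
  linarith

theorem cyp : CypStatement := by
  intro G Ψ Ψ' hG h
  have hm : MapsTo Ψ (Om (Fin 5)) (Om (Fin 5)) := fun x hx => dif_mem h hx
  obtain ⟨hM, hS, -⟩ := H5.diffeo chrStatement (H5.nat chrStatement) (Fin 5) (Fin 5) G Ψ
    (Om (Fin 5)) (Om (Fin 5)) hG.metric isOpen_om h.smooth hm fun y hy => dif_inv h hy
  have hnat := H5.nat chrStatement (Fin 5) (Fin 5) (pullb G Ψ) G Ψ (Om (Fin 5)) (Om (Fin 5)) hM
    hG.metric h.smooth hm hS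
  refine ⟨⟨hM, ?_, ?_⟩, ?_, ?_⟩
  · intro c hc x hx
    ext v w
    show G (Ψ (c • x)) (fderiv ℝ Ψ (c • x) v) (fderiv ℝ Ψ (c • x) w) =
      (c ^ 2)⁻¹ * G (Ψ x) (fderiv ℝ Ψ x v) (fderiv ℝ Ψ x w)
    rw [dif_hom h hc hx, h.hom c hc x hx, hG.homog c hc _ (dif_mem h hx)]
    rfl
  · intro x hx w
    rw [pullb_apply, dif_self h hx, hG.radial _ (dif_mem h hx), dif_inner h hx, h.norm]
  · intro hs x hx v w
    have h1 := hs (Ψ x) (dif_mem h hx) (fderiv ℝ Ψ x v) (fderiv ℝ Ψ x w)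
    rw [pullb_apply, hnat x hx]
    exact h1
  · intro hs x hx v w
    have h1 := hs (Ψ x) (dif_mem h hx) (fderiv ℝ Ψ x v) (fderiv ℝ Ψ x w)
    show -(G (Ψ x) (fderiv ℝ Ψ x v) (fderiv ℝ Ψ x v) * G (Ψ x) (fderiv ℝ Ψ x w) (fderiv ℝ Ψ x w) -
      G (Ψ x) (fderiv ℝ Ψ x v) (fderiv ℝ Ψ x w) ^ 2) ≤
        G (Ψ x) (fderiv ℝ Ψ x (riem (pullb G Ψ) x v w w)) (fderiv ℝ Ψ x v)
    rw [hnat x hx]
    exact h1

end Pool.Agent.ZRT.H55
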