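import Pool.Agent.ZRT.StmtsA

/-! Squad ZRT (MP_33f2b9_gt), row YPW (helper55): powers of a rotation. -/

set_option autoImplicit false

noncomputable section

open scoped ContDiff Topology RealInnerProductSpace
open Set MeasureTheory

namespace Pool.Agent.ZRT.H55

open Pool.Agent.RF Pool.Agent.MVS Pool.Agent.ZRT Pool.Agent.MinVolSphere Pool.Agent.SecondKind

theorem circ_add (α β α' β' : ℝ) (x : Fin 5 → ℝ) :
    circ (α + α') (β + β') 1 x = circ α β 1 (circ α' β' 1 x) := by
  funext i
  fin_cases i <;> simp [circ, Real.cos_add, Real.sin_add] <;> ring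

theorem circ_zero (x : Fin 5 → ℝ) : circ 0 0 1 x = x := by
  funext i
  fin_cases i <;> simp [circ]

theorem circ_sub (α β : ℝ) (i j : ℤ) (x : Fin 5 → ℝ) :
    circ (α - i * (2 * Real.pi)) (β - j * (2 * Real.pi)) 1 x = circ α β 1 x := by
  funext l
  fin_cases l <;> simp [circ, Real.cos_sub_int_mul_two_pi, Real.sin_sub_int_mul_two_pi]

theorem circ_tangent (α β : ℝ) {x v : Fin 5 → ℝ} (h : Tangent x v) :
    Tangent (circ α β 1 x) (circ α β 1 v) := by
  obtain ⟨h1, h2⟩ := h
  have ha := Real.sin_sq_add_cos_sq α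
  have hb := Real.sin_sq_add_cos_sq β
  refine ⟨?_, ?_⟩
  · unfold OnSphere at h1 ⊢
    rw [Fin.sum_univ_five] at h1 ⊢
    simp only [circ, mul_one, Matrix.cons_val_zero, Matrix.cons_val_one, Matrix.cons_val]
    linear_combination h1 + (x 0 ^ 2 + x 1 ^ 2) * ha + (x 2 ^ 2 + x 3 ^ 2) * hb
  · rw [Fin.sum_univ_five] at h2 ⊢
    simp only [circ, mul_one, Matrix.cons_val_zero, Matrix.cons_val_one, Matrix.cons_val]
    linear_combination h2 + (x 0 * v 0 + x 1 * v 1) * ha + (x 2 * v 2 + x 3 * v 3) * hb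

theorem ypw : YpwStatement := by
  intro g α β k i j hg x v w hv hw
  rw [circ_sub, circ_sub, circ_sub]
  have key : ∀ k : ℕ, ∀ x v w, Tangent x v → Tangent x w →
      g (circ (k * α) (k * β) 1 x) (circ (k * α) (k * β) 1 v) (circ (k * α) (k * β) 1 w) =
        g x v w := by
    intro k
    induction k with
    | zero =>
      intro x v w _ _
      rw [Nat.cast_zero, zero_mul, zero_mul, circ_zero, circ_zero, circ_zero]
    | succ k ih =>
      intro x v w hv hw
      have e1 : ((k + 1 : ℕ) : ℝ) * α = k * α + α := by push_cast; ring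
      have e2 : ((k + 1 : ℕ) : ℝ) * β = k * β + β := by push_cast; ring
      rw [e1, e2, circ_add, circ_add, circ_add, ih _ _ _ (circ_tangent α β hv)
        (circ_tangent α β hw)]
      exact hg x v w hv hw
  exact key k x v w hv hw

end Pool.Agent.ZRT.H55
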